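import Pool.Agent.Helper46.NU.Names
import Pool.Agent.Helper97.Ku.RO

/-!
# MP_4137ca_lc: countably generated sigma-algebras and analytic sets (definitions)

`Phi E` says that in the structure `(N, E)` there is an uncountable set `U` containing all natural
numbers such that for every family `(A u)`, `u` in `U`, of sets of subsets of `ω` some analytic set
of subsets of `ω` is not in the sigma-algebra generated by the sets `A u`.
-/

noncomputable section

namespace AN

open Pool.Agent.Helper97.Ku NU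

universe u v

section Model

variable {N : Type v} (E : N → N → Prop)

/-- The pair `(x, y)` of subsets of `ω` is in the open set `O k` coded by the set `c`: for some
natural number `n` there are finite sets `s`, `t` of natural numbers with the largest element `n`
such that `x` agrees with `s` and `y` agrees with `t` below `n`, and the triple `(k, (s, t))` is
an element of `c`. -/
def InO (o c k x y : N) : Prop :=
  ∃ n s t q, E n o ∧ (Lst E s n ∧ (Lst E t n ∧ (AgB E n s x ∧ (AgB E n t y ∧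
    (IsPr E q s t ∧ Ap E c k q)))))

/-- `B` is an analytic set of subsets of `ω`: for some `c` it is the set of all `x ⊆ ω` such that
`(x, y)` is in all open sets `O k`, `k ∈ ω`, coded by `c`, for some `y ⊆ ω`. So `B` is the
projection of a `G_δ` subset of the square of the Cantor space. -/
def IsAna (o B : N) : Prop :=
  ∃ c, ∀ x, E x B ↔ (Sub E x o ∧ ∃ y, Sub E y o ∧ ∀ k, E k o → InO E o c k x y)

/-- `Y` is the set of all `x ⊆ ω` such that the pair `(u, x)` is in `R`. -/
def IsSec (o R u Y : N) : Prop := ∀ x, E x Y ↔ (Sub E x o ∧ Ap E R u x)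

/-- `S` is a sigma-algebra of sets of subsets of `ω`: it is nonempty, closed under complements, and
if all sections `{x : (n, x) ∈ R}`, `n ∈ ω`, of a set `R` are in `S`, then their union is in `S`. -/
structure IsSig (o S : N) : Prop where
  sub : ∀ Y, E Y S → IsReals E o Y
  ne : ∃ Y, E Y S
  cpl : ∀ Y, E Y S → ∃ Z, E Z S ∧ ∀ x, E x Z ↔ (Sub E x o ∧ ¬ E x Y)
  un : ∀ R, (∀ n, E n o → ∃ Y, E Y S ∧ IsSec E o R n Y) →
    ∃ Z, E Z S ∧ ∀ x, E x Z ↔ (Sub E x o ∧ ∃ n, E n o ∧ Ap E R n x)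

/-- In `(N, E)`: there is a set `U` containing all natural numbers, with no injection into `ω`,
such that for every set `R`, that is, for every family `(A u)`, `u ∈ U`, of sets of subsets of `ω`,
where `A u = {x ⊆ ω : (u, x) ∈ R}`, there are an analytic set `B` and a sigma-algebra `S` which
contains all `A u` but not `B`. -/
def Phi : Prop :=
  ∃ o, IsOmega E o ∧ ∃ U, (∀ n, E n o → E n U) ∧
    (¬ Inj E (fun u => E u U) (fun n => E n o) ∧
    ∀ R, ∃ B, IsAna E o B ∧ ∃ S, IsSig E o S ∧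
      ((∀ u, E u U → ∃ Y, E Y S ∧ IsSec E o R u Y) ∧ ¬ E B S))

end Model

section Val

variable {L : Type u} [CompleteBooleanAlgebra L]

def inoV (o c k x y : BSet L) : L :=
  ⨆ n : BSet L, ⨆ s : BSet L, ⨆ t : BSet L, ⨆ q : BSet L,
    (n.mem o ⊓ (lstV s n ⊓ (lstV t n ⊓ (agbV n s x ⊓ (agbV n t y ⊓ (prV q s t ⊓ apV c k q))))))

/-- The value of: there is `y ⊆ ω` with `(x, y)` in all open sets coded by `c`. -/
def prjV (o c x : BSet L) : L :=
  ⨆ y : BSet L, (subV y o ⊓ ⨅ k : BSet L, (k.mem o ⇨ inoV o c k x y))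

def anaV (o B : BSet L) : L :=
  ⨆ c : BSet L, ⨅ x : BSet L, iffV (x.mem B) (subV x o ⊓ prjV o c x)

def secV (o R u Y : BSet L) : L := ⨅ x : BSet L, iffV (x.mem Y) (subV x o ⊓ apV R u x)

def cplV (o S : BSet L) : L :=
  ⨅ Y : BSet L, (Y.mem S ⇨ ⨆ Z : BSet L, (Z.mem S ⊓
    ⨅ x : BSet L, iffV (x.mem Z) (subV x o ⊓ (x.mem Y)ᶜ)))

def unV (o S : BSet L) : L :=
  ⨅ R : BSet L, ((⨅ n : BSet L, (n.mem o ⇨ ⨆ Y : BSet L, (Y.mem S ⊓ secV o R n Y))) ⇨
    ⨆ Z : BSet L, (Z.mem S ⊓
      ⨅ x : BSet L, iffV (x.mem Z) (subV x o ⊓ ⨆ n : BSet L, (n.mem o ⊓ apV R n x))))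

def sigV (o S : BSet L) : L :=
  (⨅ Y : BSet L, (Y.mem S ⇨ realsV o Y)) ⊓ ((⨆ Y : BSet L, Y.mem S) ⊓ (cplV o S ⊓ unV o S))

def phiV (L : Type u) [CompleteBooleanAlgebra L] : L :=
  ⨆ o : BSet L, (omegaV o ⊓ ⨆ U : BSet L, ((⨅ n : BSet L, (n.mem o ⇨ n.mem U)) ⊓
    ((injV (fun u => u.mem U) (fun n => n.mem o))ᶜ ⊓
    ⨅ R : BSet L, ⨆ B : BSet L, (anaV o B ⊓ ⨆ S : BSet L, (sigV o S ⊓
      ((⨅ u : BSet L, (u.mem U ⇨ ⨆ Y : BSet L, (Y.mem S ⊓ secV o R u Y))) ⊓ (B.mem S)ᶜ))))))

end Val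

section Names

variable {L : Type} [CompleteBooleanAlgebra L]

/-- The name of a real with the truth values `a`. -/
def rN (a : ℕ → L) : BSet L := BSet.mk ℕ nn a

/-- The truth values of a ground real. -/
def ch (A : Set ℕ) (n : ℕ) : L := bo (n ∈ A)

/-- The name of a set of reals. -/
def YN (y : (ℕ → L) → L) : BSet L := BSet.mk (ℕ → L) rN y

/-- Extensional functions on the names of reals. -/
def XR (y : (ℕ → L) → L) : Prop := ∀ a b : ℕ → L, (⨅ n, iffV (a n) (b n)) ⊓ y a ≤ y b

/-- The name of a family of sets of reals. -/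
def SN (V : Set ((ℕ → L) → L)) : BSet L := BSet.mk V (fun y => YN y.1) (fun _ => ⊤)

/-- The name of a code of a sequence of open sets. -/
def cN (γ : ℕ → Finset ℕ → Finset ℕ → L) : BSet L :=
  BSet.mk (ℕ × Finset ℕ × Finset ℕ) (fun p => kpr (nn p.1) (kpr (fsN p.2.1) (fsN p.2.2)))
    (fun p => γ p.1 p.2.1 p.2.2)

/-- The value of: `a` agrees with `s` below `n`. -/
def agr (n : ℕ) (s : Finset ℕ) (a : ℕ → L) : L := ⨅ m : ℕ, ⨅ _ : m < n, iffV (bo (m ∈ s)) (a m)

/-- The value of: `(a, y)` is in the `k`-th open set. -/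
def Ov (γ : ℕ → Finset ℕ → Finset ℕ → L) (k : ℕ) (a y : ℕ → L) : L :=
  ⨆ n : ℕ, ⨆ s : Finset ℕ, ⨆ t : Finset ℕ,
    (bo (LastN s n ∧ LastN t n) ⊓ (γ k s t ⊓ (agr n s a ⊓ agr n t y)))

/-- The value of: `a` is in the analytic set coded by `γ`. -/
def beta (γ : ℕ → Finset ℕ → Finset ℕ → L) (a : ℕ → L) : L :=
  ⨆ y : ℕ → L, ⨅ k : ℕ, Ov γ k a y

/-- The name of the index set `U`: the natural numbers and the ground reals `r x`. -/
def uN {X : Type} (r : X → Set ℕ) : BSet L :=
  BSet.mk (ℕ ⊕ X) (Sum.elim nn fun x => rN (ch (r x))) (fun _ => ⊤)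

end Names

/-- The cylinder coded by the finite set `σ` with the largest element `n`. -/
def CylS (σ : Finset ℕ) (A : Set ℕ) : Prop := ∃ n, LastN σ n ∧ ∀ m < n, (m ∈ A ↔ m ∈ σ)

section Coding

variable {L : Type} [CompleteBooleanAlgebra L]

open Classical in
/-- A move from the node `s`: if `s` is not terminal in the tree coded by `A`, the child `m :: s`
is in `y`; if `s` is terminal, `A` is in the `m`-th cylinder and this cylinder is in the open set
of `s`. -/
def Wv (a : List ℕ → Finset ℕ → L) (A : Set ℕ) (y : ℕ → L) (s : List ℕ) (m : ℕ) : L :=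
  if 2 * Encodable.encode s ∈ A then y (Encodable.encode (m :: s))
  else if CylS (Denumerable.ofNat (Finset ℕ) m) A then a s (Denumerable.ofNat (Finset ℕ) m) else ⊥

end Coding

/-! ## The forcing -/

/-- A type like the first uncountable ordinal. -/
structure Om1 (X : Type) [LinearOrder X] : Prop where
  wf : WellFounded fun x y : X => x < y
  unc : Uncountable X
  cnt : ∀ x : X, (Set.Iic x).Countable

/-- Well-founded trees of sequences of natural numbers (written backwards) for all `x`, given by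
the ranks `rk x s` of the nodes `s`. The node `s` is terminal if its rank is at most `one`. The
real `r x` codes the set of nodes which are not terminal. -/
structure Rnk (X : Type) [LinearOrder X] where
  one : X
  rk : X → List ℕ → X
  r : X → Set ℕ
  lt : ∀ x s n, one < rk x s → rk x (n :: s) < rk x s
  fin : ∀ x s b b', one < rk x s → b < b' → b' < rk x s → {n | rk x (n :: s) ≤ b}.Finite
  root : ∀ x, x ≤ rk x []
  inj : Function.Injective r
  cod : ∀ x s, (2 * Encodable.encode s ∈ r x ↔ one < rk x s)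

/-- The vertices of the graph. -/
inductive Vx (I X : Type) : Type
  | a (i : I) (s : List ℕ) (σ : Finset ℕ)
  | g (i : I) (x : X) (s : List ℕ)

variable {X : Type} [LinearOrder X]

/-- The edges (conflicts). -/
def Cf (R : Rnk X) {I : Type} : Vx I X → Vx I X → Prop
  | .g i x s, .g i' x' s' => i = i' ∧ (x = x' ∧ (((∃ n, s' = n :: s) ∧ R.one < R.rk x s) ∨
      ((∃ n, s = n :: s') ∧ R.one < R.rk x s')))
  | .a i s σ, .g i' x s' => i = i' ∧ (s = s' ∧ (¬ R.one < R.rk x s ∧ CylS σ (R.r x)))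
  | .g i x s, .a i' s' σ => i = i' ∧ (s = s' ∧ (¬ R.one < R.rk x s ∧ CylS σ (R.r x)))
  | .a _ _ _, .a _ _ _ => False

/-- Conditions: finite sets of vertices without edges. -/
def Cd (R : Rnk X) (I : Type) : Type := {p : Finset (Vx I X) // ∀ v ∈ p, ∀ w ∈ p, ¬ Cf R v w}

instance (R : Rnk X) (I : Type) : Preorder (Cd R I) where
  le p q := q.1 ⊆ p.1
  le_refl p := Finset.Subset.refl p.1
  le_trans p q r h k := Finset.Subset.trans k h

theorem Cd.le_def {R : Rnk X} {I : Type} {p q : Cd R I} : p ≤ q ↔ q.1 ⊆ p.1 := Iff.rfl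

/-- The truth value of the vertex `v`. -/
def gv (R : Rnk X) {I : Type} (v : Vx I X) : RO (Cd R I) := RO.cl {p | v ∈ p.1}

/-- Vertices of low rank. -/
def LowV (R : Rnk X) {I : Type} (b : X) (H : Set (I × X)) : Vx I X → Prop
  | .a _ _ _ => True
  | .g i x s => (i, x) ∈ H ∨ R.rk x s ≤ b

/-- Truth values of low rank: they are unions of conditions of low rank. -/
def Low (R : Rnk X) {I : Type} (b : X) (H : Set (I × X)) (c : RO (Cd R I)) : Prop :=
  ∀ p ∈ c, ∃ q ∈ c, (∀ v ∈ q.1, LowV R b H v) ∧ ∃ r, r ≤ p ∧ r ≤ q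

/-- The countable chain condition. -/
def CccL (L : Type) [CompleteBooleanAlgebra L] : Prop :=
  ∀ (ι : Type) (b : ι → L), (∀ i, b i ≠ ⊥) → (∀ i j, i ≠ j → b i ⊓ b j = ⊥) → Countable ι

end AN
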