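import Pool.Agent.Helper59.AN.Defs

/-!
# MP_4137ca_lc: goals

Part I: the forcing (finite sets of vertices without edges), part II: names, part III: syntax.
-/

noncomputable section

namespace AN

open Pool.Agent.Helper97.Ku NU BSet

/-! ## Part I: the forcing -/

/-- ORD. There is a type of order type `ω₁`, with an injection into the reals.
Proof: `(Ordinal.omega 1).ToType` (or `(Cardinal.aleph 1).ord.toType`) in `Type`: initial segments
have cardinality `< ℵ₁`, hence `≤ ℵ₀`; the type has cardinality `ℵ₁ ≤ 𝔠 = #(Set ℕ)`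
(`Cardinal.aleph_one_le_continuum`). Note `Set.Iic x` is `Set.Iio x` and one more point. -/
def G_ORD : Prop := ∃ (X : Type) (_ : LinearOrder X), Om1 X ∧
  ∃ r : X → Set ℕ, Function.Injective r

/-- RNK. The ranks exist.
Proof: for every `c` the set `Iio c` is countable, choose `e c : ℕ → X` with
`range (e c) = Iio c` if `Iio c` is nonempty. `X` is uncountable, so there is `one : X` such that
some `z` satisfies `z < one` (any element which is not the least one); in fact let `one` be the
least element of the set of nonminimal elements, or just any element; nothing more is needed about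
it. Put `f c n = max one (e c 0) ⊔ ... ⊔ (e c n)` (maximum of `one` and the first values); for
`one < c` we have `one ≤ f c n < c`, and if `b < b' < c`, then `b' = e c m` for some `m` and
`b < b' ≤ f c n` for all `n ≥ m`, so `{n | f c n ≤ b}` is finite. Define `rk x [] = x`,
`rk x (n :: s) = f (rk x s) n` (for all `s`, by recursion on the list). The real: an injective
`r₀ : X → Set ℕ` is given; put `r x = {2 * encode s | one < rk x s} ∪ {2 * m + 1 | m ∈ r₀ x}`. -/
def G_RNK : Prop := ∀ (X : Type) [LinearOrder X], Om1 X →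
  (∃ r : X → Set ℕ, Function.Injective r) → Nonempty (Rnk X)

/-- X12. Extensions of conditions.
(1) Suppose `s` is not terminal for `x` and `g i x s` is not in `p`. For all but finitely many `n`
no vertex of `p` has the list `n :: s` or `m :: n :: s` for any `m` (finitely many vertices; the map
`n ↦ n :: s` is injective). For such `n` the set `insert (g i x (n :: s)) p` has no edge: a
neighbour of `g i x (n :: s)` is `g i x (m :: n :: s)`, or `g i x s` (this is the only `s'` with
`n :: s = m :: s'`), or some `a i (n :: s) σ`, or itself (impossible since `n :: s ≠ m :: n :: s`);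
none of these is in `p`.
(2) Suppose `s` is terminal for `x` and `g i x s` is not in `p`. Choose a number `n` such that
for all `x'` occurring in `p`, `x' ≠ x`, the reals `r x'` and `r x` differ below `n` (`r` is
injective, finitely many `x'`). Let `σ` be `{m < n | m ∈ r x} ∪ {n}` (a `Finset`): its largest
element is `n`, `CylS σ (r x)` holds and `CylS σ (r x')` fails for these `x'`. The neighbours of
`a i s σ` are `g i x' s` with `CylS σ (r x')`; in `p` this is only possible for `x' = x`, but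
`g i x s ∉ p`. -/
def G_X12 : Prop := ∀ (X : Type) [LinearOrder X] (R : Rnk X) (I : Type) (p : Cd R I) (i : I)
  (x : X) (s : List ℕ), Vx.g i x s ∉ p.1 →
  (R.one < R.rk x s → ∃ n, ∃ q : Cd R I, q ≤ p ∧ Vx.g i x (n :: s) ∈ q.1 ∧
    ∀ v ∈ q.1, v ∈ p.1 ∨ v = Vx.g i x (n :: s)) ∧
  (¬ R.one < R.rk x s → ∃ σ, CylS σ (R.r x) ∧ ∃ q : Cd R I, q ≤ p ∧ Vx.a i s σ ∈ q.1 ∧
    ∀ v ∈ q.1, v ∈ p.1 ∨ v = Vx.a i s σ)

/-- EQ. The two recursion equations.
Proof of the first: `≤`: if `p ∈ gv (g i x s)` and `q ≤ p`, `q ∈ ⨆ n, gv (g i x (n :: s))`, then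
(`RO.mem_iSup`) some `r ≤ q` is in `gv (g i x (n :: s))`, some `r' ≤ r` contains `g i x (n :: s)`,
some `r'' ≤ r'` contains also `g i x s`: but these two vertices are adjacent. `≥`: let `p` be in the
complement, `q ≤ p`; if `g i x s ∈ q` take `r = q`; otherwise by X12 some `q' ≤ q` contains
`g i x (n :: s)` for some `n`, so `q' ∈ gv (g i x (n :: s)) ≤ ⨆ ..`, a contradiction to
`q' ≤ p ∈ (⨆ ..)ᶜ` (`RO.mem_compl`). The second equation in the same way. -/
def G_EQ : Prop := ∀ (X : Type) [LinearOrder X] (R : Rnk X) (I : Type) (i : I) (x : X)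
  (s : List ℕ),
  (R.one < R.rk x s → gv R (Vx.g i x s) = (⨆ n : ℕ, gv R (Vx.g i x (n :: s)))ᶜ) ∧
  (¬ R.one < R.rk x s →
    gv R (Vx.g i x s) = (⨆ σ : Finset ℕ, ⨆ _ : CylS σ (R.r x), gv R (Vx.a i s σ))ᶜ)

/-- FNC. Finite partial functions into `ℕ` have the countable chain condition: if every `u i` is
a finite set of coordinates, `c i : K → ℕ`, and for `i ≠ j` there is a common coordinate `k` with
`c i k ≠ c j k`, then the index type is countable.
Proof: the product measure `μ = Measure.infinitePi fun _ : K => NU.geo` on `K → ℕ` (`geo {n} > 0`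
for all `n`, see `NU.geo`); the sets `C i = {ω | ∀ k ∈ u i, ω k = c i k}` are measurable, of positive
measure (finite product), pairwise disjoint; a family of pairwise disjoint measurable sets of
positive measure for a finite measure is countable
(`Measure.countable_meas_pos_of_disjoint_iUnion`). -/
def G_FNC : Prop := ∀ (K ι : Type) (u : ι → Finset K) (c : ι → K → ℕ),
  (∀ i j, i ≠ j → ∃ k, k ∈ u i ∧ k ∈ u j ∧ c i k ≠ c j k) → Countable ι

/-- CCC. The algebra has the countable chain condition.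
Proof: choose `p i ∈ b i` (`b i ≠ ⊥`: if no condition were in `b i`, it would be `≤ ⊥`); for
`i ≠ j` the conditions `p i`, `p j` have no common extension, so `p i ∪ p j` contains an edge
between `v ∈ p i` and `w ∈ p j` (or conversely). Apply FNC with the coordinates `K = I ⊕ (I × X)`:
`u i` = all `inl k` such that `k : I` occurs in some vertex of `p i`, and all `inr (k, x)` such that
some `g k x s` is in `p i`; the value at `inl k` is the code (`Encodable.encode`) of the finite set
of all `(s, σ)` with `a k s σ ∈ p i`, the value at `inr (k, x)` is the code of the finite set of all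
`s` with `g k x s ∈ p i`. If the values at all common coordinates agree, then `p i ∪ p j` has no
edge: an edge between `g k x s ∈ p i` and `g k x s' ∈ p j` gives the common coordinate
`inr (k, x)`, so `g k x s' ∈ p i`, a contradiction since `p i` has no edge; an edge between
`g k x s` and `a k s σ` gives the common coordinate `inl k`, so the second vertex is in both
conditions. -/
def G_CCC : Prop := ∀ (X : Type) [LinearOrder X] (R : Rnk X) (I : Type), CccL (RO (Cd R I))

/-- KEY. The rank lemma: complements of truth values of rank at most `b` have rank at most `b'`.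
Proof. Let `p ∈ cᶜ`.
Step 1. Call `(i, x, s, n)` bad if `g i x s ∈ p`, `(i, x) ∉ H`, `b' < rk x s`,
`rk x (n :: s) ≤ b`. There are only finitely many bad quadruples (field `fin`; `one ≤ b < b'`
gives `one < rk x s`). For a bad quadruple `g i x (n :: s) ∉ p` (it is adjacent to `g i x s ∈ p`),
so by X12 we can add to `p` a neighbour `w` of `g i x (n :: s)`: `w = g i x (m :: n :: s)` if
`one < rk x (n :: s)` (its rank is `< rk x (n :: s) ≤ b`, field `lt`), or `w = a i (n :: s) σ` with
`CylS σ (r x)` otherwise. Treat all bad quadruples of `p` one after the other (induction over the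
finite set; the new condition contains `p`, hence again `g i x (n :: s)` is not in it): we get
`p₀ ≤ p` such that all vertices of `p₀` which are not in `p` satisfy `LowV b' H`, and for
all bad quadruples (of `p`) `p₀` contains a neighbour `w` of `g i x (n :: s)` with `LowV b' H w`.
Step 2. Let `p₁` be the set of all `v ∈ p₀` with `LowV b' H v` (a condition, `p₀ ≤ p₁`). CLAIM: if
all vertices of `q` satisfy `LowV b H` and `q`, `p₁` have a common extension, then `q ∪ p₀` has no
edge. Otherwise there is an edge between `v' ∈ q` and `v ∈ p₀` not in `p₁`; so `v = g i x s ∈ p`,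
`(i, x) ∉ H`, `b' < rk x s`. Then `v'` is not `a i s σ` (this needs `¬ one < rk x s`, but
`one ≤ b < b' < rk x s`); if `v' = g i x s'` with `s = n :: s'`, `one < rk x s'`, then
`rk x s < rk x s' ≤ b` (since `(i, x) ∉ H` and `LowV b H v'`), impossible; so
`v' = g i x (n :: s)` with `rk x (n :: s) ≤ b`: then `(i, x, s, n)` is bad, `p₁` contains a
neighbour `w` of `v'`, and `q`, `p₁` have no common extension. Contradiction.
Step 3. `p₁ ∈ cᶜ`: otherwise (`RO.mem_compl`) some `r ≤ p₁` is in `c`, hence there is `q ∈ c` with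
all vertices in `LowV b H`, and a common extension of `q` and `r`, hence of `q` and `p₁`. By the
claim `q ∪ p₀` is a condition; it extends `q ∈ c` and `p₀ ≤ p ∈ cᶜ`. Contradiction
(`RO.not_mem_compl`, `RO.lower`). Now `p₁` witnesses `Low R b' H cᶜ` at `p`: `r = p₀`. -/
def G_KEY : Prop := ∀ (X : Type) [LinearOrder X] (R : Rnk X) (I : Type) (b b' : X)
  (H : Set (I × X)) (c : RO (Cd R I)), R.one ≤ b → b < b' → Low R b H c → Low R b' H cᶜ

/-- LOW. Closure properties: (1) suprema (`RO.mem_iSup`); (2) binary infima: for `p ∈ c ⊓ d` take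
`q ∈ c` low with a common extension `r` of `p` and `q`; then `r ∈ d`, take `q' ∈ d` low with a
common extension `r'` of `r` and `q'`; `q ∪ q'` is a condition (contained in `r'`), low, in `c ⊓ d`;
(3) monotonicity in `b` and `H`; (4) by the countable chain condition every `c` has a countable
support: let `A` be a maximal (Zorn) set of pairwise incompatible conditions in `c`; it is countable
(CCC applied to the elements `RO.cl {r | r ≤ q}`, `q ∈ A`), let `H` be the set of all `(i, x)` with
some `g i x s` in some member of `A`. -/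
def G_LOW : Prop := ∀ (X : Type) [LinearOrder X] (R : Rnk X) (I : Type),
  (∀ (b : X) (H : Set (I × X)) (J : Type) (c : J → RO (Cd R I)), (∀ j, Low R b H (c j)) →
    Low R b H (⨆ j, c j)) ∧
  (∀ (b : X) (H : Set (I × X)) (c d : RO (Cd R I)), Low R b H c → Low R b H d →
    Low R b H (c ⊓ d)) ∧
  (∀ (b b' : X) (H H' : Set (I × X)) (c : RO (Cd R I)), b ≤ b' → H ⊆ H' → Low R b H c →
    Low R b' H' c) ∧
  (∀ (b : X) (c : RO (Cd R I)), ∃ H : Set (I × X), H.Countable ∧ Low R b H c)

/-- SEP. Functions of low rank are different from the generic function.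
Proof: suppose `p` is in the infimum. The set of all `x ≤ b`, the set of all `x` with
`(i, x) ∈ C`, and the set of all `x` occurring in vertices of `p` are countable, `X` is not; so there
is `x > b` with `(i, x) ∉ C` such that no `g i x s` is in `p`. Then `one ≤ b < x ≤ rk x []`
(field `root`) and `p₁ = insert (g i x []) p` is a condition (the neighbours of `g i x []` are the
`g i x [n]`; not `a i [] σ`, since `one < rk x []`). `p₁ ≤ p`, `p₁ ∈ gv (g i x [])`, so
`p₁ ∈ f x`. There is `q ∈ f x` with all vertices in `LowV b H`, `H = {(j, x) | j ∈ D} ∪ C`, and a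
common extension of `p₁` and `q`. Now `g i x [] ∉ q` since `(i, x) ∉ H` and `b < rk x []`, and
`g i x [] ∉ p`. The set `q ∪ p` is a condition (contained in a common extension), by X12 there is
`p₂ ≤ q ∪ p` containing `g i x [n]` for some `n`. `p₂ ≤ q` gives `p₂ ∈ f x`, `p₂ ≤ p` gives
`p₂ ∈ gv (g i x [])`, so some `r ≤ p₂` contains both `g i x []` and `g i x [n]`, which are
adjacent. Contradiction. -/
def G_SEP : Prop := ∀ (X : Type) [LinearOrder X], Om1 X → ∀ (R : Rnk X) (I : Type) (i : I)
  (D : Set I) (C : Set (I × X)) (b : X) (f : X → RO (Cd R I)), i ∉ D → C.Countable → R.one ≤ b →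
  (∀ x, Low R b ({t | t.1 ∈ D} ∪ C) (f x)) → (⨅ x, iffV (gv R (Vx.g i x [])) (f x)) = ⊥

/-- The index set of the generic sets. -/
abbrev Ix (X : Type) : Type := Set ((ℕ ⊕ X) × X × ℕ)

/-- COMB. The forcing part. For given truth values `v u x` there is an index `i` and a family `F`
of functions `X → RO (Cd R I)`, which contains all functions `v u`, is closed under complements and
countable unions with coefficients, but does not contain the generic function of `i`, in the
following strong sense.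
Proof: by LOW (4) every `v u x` has a countable set `H u x` with `Low R one (H u x) (v u x)`; let
`h u x : ℕ → I × X` be a function whose range contains `H u x` (if `I × X` is nonempty; `X` is
uncountable and `I = Set _` is nonempty). Let `D` be the set of all `(h u x n).1`. By Cantor's
theorem (`Function.cantor_surjective`) the function `((u, x), n) ↦ (h u x n).1` is not onto
`I = Set ((ℕ ⊕ X) × X × ℕ)`, let `i ∉ D`. Let `F` be the set of all `f` such that for some `b` with
`one ≤ b` and some countable `C`: `∀ x, Low R b ({t | t.1 ∈ D} ∪ C) (f x)`. `v u ∈ F` by LOW (3).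
Complements: KEY; there is `b' > b` since `Iic b` is countable. Countable unions: for `b n`, `C n`
there is `b` with `b n ≤ b` for all `n` (the union of the sets `Iic (b n)` is countable) and
`one ≤ b`, take `C = ⋃ n, C n ∪ ⋃ n, H n`, where `H n` is a countable set for `c n` by LOW (4);
use LOW (1), (2), (3). The last statement is SEP. -/
def G_COMB : Prop := ∀ (X : Type) [LinearOrder X], Om1 X → ∀ (R : Rnk X)
  (v : (ℕ ⊕ X) → X → RO (Cd R (Ix X))), ∃ (i : Ix X) (F : Set (X → RO (Cd R (Ix X)))),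
  (∀ u, v u ∈ F) ∧ (∀ f ∈ F, (fun x => (f x)ᶜ) ∈ F) ∧
  (∀ (c : ℕ → RO (Cd R (Ix X))) (f : ℕ → X → RO (Cd R (Ix X))), (∀ n, f n ∈ F) →
    (fun x => ⨆ n, (c n ⊓ f n x)) ∈ F) ∧
  ∀ f ∈ F, (⨅ x, iffV (gv R (Vx.g i x [])) (f x)) = ⊥

/-! ## Part II: names -/

/-- RN. Names of reals.
Proof: (1) `(nn n).mem (rN a) = ⨆ m, a m ⊓ (nn n).eq (nn m)` and `G_NAT` (`NU.PkNAT.nat`). (2) as
in `NU.PkREA`. (3) extensionality `BSet.eq_iff_ext`, or `eq_mk'` and (1). (4) `x.eq (rN ..)`: use
`BSet.ext_le`; for `z.mem x`: below `subV x omN` we have `z.mem x ≤ z.mem omN = ⨆ n, z.eq (nn n)`,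
and `z.eq (nn n) ⊓ z.mem x ≤ (nn n).mem x`; conversely `z.mem (rN a) = ⨆ n, a n ⊓ z.eq (nn n)`.
(5) `agbV (nn n) (fsN s) (rN a)`: by `G_NAT` `m.mem (nn n) = ⨆ i : Fin n, m.eq (nn i)`, use
extensionality and `G_FN1` (`(nn m).mem (fsN s) = bo (m ∈ s)`). -/
def G_RN : Prop := ∀ (L : Type) [CompleteBooleanAlgebra L],
  (∀ (n : ℕ) (a : ℕ → L), (nn n).mem (rN a) = a n) ∧
  (∀ a : ℕ → L, subV (rN a) omN = ⊤) ∧
  (∀ a b : ℕ → L, (rN a).eq (rN b) = ⨅ n, iffV (a n) (b n)) ∧
  (∀ x : BSet L, subV x omN ≤ x.eq (rN fun n => (nn n).mem x)) ∧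
  (∀ (n : ℕ) (s : Finset ℕ) (a : ℕ → L), agbV (nn n) (fsN s) (rN a) = agr n s a)

/-- RQ. Quantifiers over reals, and names of sets of reals.
Proof: (1), (2): `G_RN` (4) and extensionality (`Ext`), `subV (rN a) omN = ⊤`. (3) `x.mem (YN y) =
⨆ b, y b ⊓ x.eq (rN b)`; for `x = rN a`: `y b ⊓ (rN a).eq (rN b) ≤ y a` by `XR`. (4) from (3) and
`subV`: `x.mem (YN y) ≤ subV x omN`. (5) `eq_iff_ext` or `eq_mk'`, (3). (6): `≤`: take `x = rN a`
(`subV (rN a) omN = ⊤`). `≥`: for given `x`: `x.mem (YN y) = subV x omN ⊓ y (fun n => (nn n).mem x)`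
by (4), (3) and `G_RN` (4), and `subV x omN ⊓ φ x = subV x omN ⊓ φ (rN ..)`. -/
def G_RQ : Prop := ∀ (L : Type) [CompleteBooleanAlgebra L],
  (∀ φ : BSet L → L, BSet.Ext φ → (⨅ x : BSet L, (subV x omN ⇨ φ x)) = ⨅ a : ℕ → L, φ (rN a)) ∧
  (∀ φ : BSet L → L, BSet.Ext φ → (⨆ x : BSet L, (subV x omN ⊓ φ x)) = ⨆ a : ℕ → L, φ (rN a)) ∧
  (∀ (y : (ℕ → L) → L) (a : ℕ → L), XR y → (rN a).mem (YN y) = y a) ∧
  (∀ y : (ℕ → L) → L, XR y → realsV omN (YN y) = ⊤) ∧
  (∀ y z : (ℕ → L) → L, XR y → XR z → (YN y).eq (YN z) = ⨅ a, iffV (y a) (z a)) ∧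
  (∀ (y : (ℕ → L) → L) (φ : BSet L → L), XR y → BSet.Ext φ →
    (⨅ x : BSet L, iffV (x.mem (YN y)) (subV x omN ⊓ φ x)) = ⨅ a : ℕ → L, iffV (y a) (φ (rN a)))

/-- EXT. Extensionality of the new predicates (`Ext` closure lemmas in `Ku/Basic.lean`, `G_EX1`
(`NU.PkEX1.ex1`) for `subV`, `apV`, `lstV`, `agbV`; for `prV` use `G_PAR` (1)). -/
def G_EXT : Prop := ∀ (L : Type) [CompleteBooleanAlgebra L],
  (∀ o c k x y : BSet L, BSet.Ext (fun t => inoV o c t x y) ∧ BSet.Ext (fun t => inoV o c k t y) ∧
    BSet.Ext (fun t => inoV o c k x t)) ∧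
  (∀ o c : BSet L, BSet.Ext (fun t => prjV o c t)) ∧
  (∀ o R u Y : BSet L, BSet.Ext (fun t => secV o R t Y) ∧ BSet.Ext (fun t => secV o R u t)) ∧
  (∀ o : BSet L, BSet.Ext (fun t => anaV o t) ∧ BSet.Ext (fun t => sigV o t))

/-- INO. The value of membership in an open set.
Proof: `(n.mem omN ⊓ ..)`: replace `n` by `nn n` (`G_NAT`), `lstV s (nn n) ≤ ⨆ s₀, ⨆ _ : LastN s₀ n,
s.eq (fsN s₀)` (`G_FN2` (1), (2)): replace `s`, `t` by `fsN s`, `fsN t`; `agbV` by `G_RN` (5);
`prV q (fsN s) (fsN t) = q.eq (kpr (fsN s) (fsN t))` and `apV (cN γ) (nn k) q =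
(kpr (nn k) q).mem (cN γ)` (`G_PAR`), so the supremum over `q` is
`(kpr (nn k) (kpr (fsN s) (fsN t))).mem (cN γ) = γ k s t` (`mem_mk`, `G_PAR` (2), `G_NAT` (3),
`G_FN1` (3)). -/
def G_INO : Prop := ∀ (L : Type) [CompleteBooleanAlgebra L] (γ : ℕ → Finset ℕ → Finset ℕ → L)
  (k : ℕ) (a y : ℕ → L), inoV omN (cN γ) (nn k) (rN a) (rN y) = Ov γ k a y

/-- ANA. The generic sets are analytic.
Proof: `XR`: `agr n s a ⊓ ⨅ n, iffV (a n) (b n) ≤ agr n s b`. `prjV omN (cN γ) (rN a) = beta γ a`:
by RQ (2) and EXT the supremum over `y` is over `rN y`; the infimum over `k.mem omN` is over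
`nn k` (`k.mem omN = ⨆ n, k.eq (nn n)`, `G_NAT`, extensionality); INO. Then `anaV`: take `c = cN γ`
and RQ (6) with `φ = prjV omN (cN γ)`. -/
def G_ANA : Prop := ∀ (L : Type) [CompleteBooleanAlgebra L] (γ : ℕ → Finset ℕ → Finset ℕ → L),
  XR (beta γ) ∧ anaV omN (YN (beta γ)) = ⊤

/-- COD. A code for the requirements: `0`: the root is in `y`; `kp s m`: not both `s ∈ y` and the
move `m` from `s` is in `y`; `kn s`: `s ∈ y` or some move from `s` is in `y`.
Proof: let `kp`, `kn` be such that every `k` has exactly one of the three forms (a bijection of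
`Unit ⊕ (List ℕ × ℕ) ⊕ List ℕ` and `ℕ` sending the first point to `0`, for instance
`0`, `2 * encode (s, m) + 1`, `2 * encode s + 2`, the remaining `k` do not matter: choose
`γ k s t = ⊤` for them; hence the hypothesis about all other `k` below). Let `n` be the largest
element of `S` and of `T` (otherwise `γ k S T` is arbitrary). Define `γ k S T = ⊥` if `n` is not
larger than the codes `2 * encode s`, `encode s`, `encode (m :: s)` (for `kp s m`) and the elements
of the finite set `Denumerable.ofNat _ m`; else put, writing `s ∈ T` for `encode s ∈ T`: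
`γ 0 S T = bo ([] ∈ T)`;
`γ (kp s m) S T = bo (s ∉ T) ⊔ (if 2 * encode s ∈ S then bo (m :: s ∉ T) else if CylS σ S then
(a s σ)ᶜ else ⊤)`, `σ = Denumerable.ofNat _ m`;
`γ (kn s) S T = bo (s ∈ T) ⊔ ⨆ (m with all codes < n), (if 2 * encode s ∈ S then bo (m :: s ∈ T)
else if CylS σ S then a s σ else ⊥)`.
For `a = ch A` the value `agr n S (ch A)` is `⊤` if `S` agrees with `A` below `n`, else `⊥`. The
values `agr n T y`, `T ⊆ {0..n}` with largest element `n`, are pairwise disjoint with supremum `⊤`,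
and for `j < n` the supremum of those with `j ∈ T` is `y j`, of those with `j ∉ T` it is `(y j)ᶜ`.
Hence for fixed `n` (large) the supremum over `S`, `T` is the right-hand side with the moves
restricted to small `m`; take the supremum over `n`. -/
def G_COD : Prop := ∀ (L : Type) [CompleteBooleanAlgebra L] (a : List ℕ → Finset ℕ → L),
  ∃ (γ : ℕ → Finset ℕ → Finset ℕ → L) (kp : List ℕ → ℕ → ℕ) (kn : List ℕ → ℕ),
  ∀ (A : Set ℕ) (y : ℕ → L),
    Ov γ 0 (ch A) y = y (Encodable.encode ([] : List ℕ)) ∧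
    (∀ s m, Ov γ (kp s m) (ch A) y = (y (Encodable.encode s) ⊓ Wv a A y s m)ᶜ) ∧
    (∀ s, Ov γ (kn s) (ch A) y = y (Encodable.encode s) ⊔ ⨆ m, Wv a A y s m) ∧
    ∀ k, k = 0 ∨ (∃ s m, k = kp s m) ∨ (∃ s, k = kn s) ∨ Ov γ k (ch A) y = ⊤

/-- VAL. The value of a game: if `g` satisfies the recursion equations, then the value of
membership of `A` in the analytic set is `g []`.
Proof: take `γ` from COD, `nl s` stands for `2 * encode s ∈ A`. `≥`: take `y` with
`y (encode s) = g s` (`Encodable.decode`), then `⨆ m, Wv a A y s m = (g s)ᶜ` by the equations (for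
`¬ nl s`: the supremum over `m` is the supremum over all `σ`, `Denumerable.ofNat` is onto), so
`Ov γ 0 = g []`, `Ov (kp s m) = ⊤`, `Ov (kn s) = ⊤`. `≤`: fix `y` and let `d = ⨅ k, Ov γ k (ch A) y`.
Then `d ⊓ y (encode s) = d ⊓ (⨆ m, Wv a A y s m)ᶜ` for all `s`; by induction on `s` along the
well-founded relation `d ⊓ y (encode s) = d ⊓ g s` for all `s` (for terminal `s` directly, since
`Wv` does not depend on `y`); so `d ≤ y (encode []) ⊓ d ≤ g []`. -/
def G_VAL : Prop := ∀ (L : Type) [CompleteBooleanAlgebra L] (a : List ℕ → Finset ℕ → L),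
  ∃ γ : ℕ → Finset ℕ → Finset ℕ → L, ∀ (A : Set ℕ) (g : List ℕ → L),
    (WellFounded fun t s : List ℕ => 2 * Encodable.encode s ∈ A ∧ ∃ n, t = n :: s) →
    (∀ s, 2 * Encodable.encode s ∈ A → g s = (⨆ n : ℕ, g (n :: s))ᶜ) →
    (∀ s, 2 * Encodable.encode s ∉ A → g s = (⨆ σ : Finset ℕ, ⨆ _ : CylS σ A, a s σ)ᶜ) →
    beta γ (ch A) = g []

/-- CSUP. Suprema are countable suprema.
Proof: well-order `ι`, let `d i = b i ⊓ (⨆ j < i, b j)ᶜ`, these are pairwise disjoint with the
same supremum; the set of all `i` with `d i ≠ ⊥` is countable by the chain condition. (Or Zorn.) -/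
def G_CSUP : Prop := ∀ (L : Type) [CompleteBooleanAlgebra L], CccL L → ∀ (ι : Type) (b : ι → L),
  ∃ s : Set ι, s.Countable ∧ (⨆ i, b i) = ⨆ i ∈ s, b i

/-- SIG. A closed family of names gives a sigma-algebra.
Proof: `y.mem (SN V) = ⨆ z : V, y.eq (YN z)`. (1) sets of reals: RQ (4) and extensionality of
`realsV` (`G_EX2` (3)). (2) nonempty. (3) complements: for `Y.eq (YN y)` take `Z = YN yᶜ`; the value
`⨅ x, iffV (x.mem Z) (subV x omN ⊓ (x.mem (YN y))ᶜ)` is `⊤` by RQ (6), (3) (note that `yᶜ` is again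
`XR`, it is in `V`). (4) unions: let `R` be given, `ρ n a = apV R (nn n) (rN a)` (extensional in `a`,
`G_EX1`), and let `e` be the value of the premise. For every `n`:
`e ≤ ⨆ Y, Y.mem (SN V) ⊓ secV omN R (nn n) Y = ⨆ y : V, secV omN R (nn n) (YN y)` (extensionality)
and `secV omN R (nn n) (YN y) = ⨅ a, iffV (y a) (ρ n a) =: c n y` by RQ (6). By CSUP there is a
sequence `y n k ∈ V` (`V` is nonempty) with `⨆ y : V, c n y = ⨆ k, c n (y n k)`. Put
`z a = ⨆ n, ⨆ k, (c n (y n k) ⊓ y n k a)`; it is in `V` by `hV` (pair the two indices, `Nat.pairEquiv`)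
and `c n (y n k) ⊓ y n k a = c n (y n k) ⊓ ρ n a`, so `e ⊓ z a = e ⊓ ⨆ n, ρ n a`. Hence
`e ≤ ⨅ a, iffV (z a) (⨆ n, ρ n a)`, which is the value of `⨅ x, iffV (x.mem (YN z)) (subV x omN ⊓ ⨆ n,
n.mem omN ⊓ apV R n x)` by RQ (6). -/
def G_SIG : Prop := ∀ (L : Type) [CompleteBooleanAlgebra L], CccL L →
  ∀ V : Set ((ℕ → L) → L), V.Nonempty → (∀ y ∈ V, XR y) → (∀ y ∈ V, (fun a => (y a)ᶜ) ∈ V) →
  (∀ (c : ℕ → L) (y : ℕ → (ℕ → L) → L), (∀ n, y n ∈ V) → (fun a => ⨆ n, (c n ⊓ y n a)) ∈ V) →
  sigV omN (SN V) = ⊤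

/-- UNC. The index set is uncountable.
Proof: `injV` is a supremum over `f`; suppose some `f` gives a value `e ≠ ⊥`. For every `x : X` the
name `rN (ch (r x))` is a member of `uN r` with value `⊤`, so `e ≤ ⨆ b, (b.mem omN ⊓ (apV f (rN ..) b
..)) ≤ ⨆ n, apV f (rN (ch (r x))) (nn n)` (take `c = b` in the clause `⨅ c, iffV ..`); choose
`n x` with `d x = e ⊓ apV f (rN (ch (r x))) (nn (n x)) ≠ ⊥`. `X` is uncountable, so there is `n` such
that `{x | n x = n}` is uncountable (`Countable` of a countable union of countable fibres). For two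
different such `x`, `x'`: `d x ⊓ d x' ≤ (rN (ch (r x))).eq (rN (ch (r x'))) = ⨅ n, iffV (bo ..) (bo ..)
= ⊥` since `r x ≠ r x'`. This contradicts the chain condition for the subtype. -/
def G_UNC : Prop := ∀ (L : Type) [CompleteBooleanAlgebra L], CccL L → ∀ (X : Type), Uncountable X →
  ∀ r : X → Set ℕ, Function.Injective r →
  injV (fun u => u.mem (uN r : BSet L)) (fun n => n.mem omN) = ⊥

/-! ## Part III: syntax -/

/-- SYA. Analytic sets are definable. See `NU.PkSYA`, `NU.PkSYN` for the method (closure lemmas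
`NU.Dfn.*`). -/
def G_SYA : Prop := ∀ i j : ℕ, Dfn (fun _ E w => IsAna E (w i) (w j))
  (fun _ _ w => anaV (w i) (w j))

/-- SYS. Sections and sigma-algebras are definable. -/
def G_SYS : Prop := (∀ i j k l : ℕ, Dfn (fun _ E w => IsSec E (w i) (w j) (w k) (w l))
    (fun _ _ w => secV (w i) (w j) (w k) (w l))) ∧
  ∀ i j : ℕ, Dfn (fun _ E w => IsSig E (w i) (w j)) (fun _ _ w => sigV (w i) (w j))

/-- SYN. The statement is definable (`NU.PkSYN.omD` for `IsOmega`, `NU.PkSYN.inj` for the
injection). -/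
def G_SYN : Prop := Dfn (fun _ E _ => Phi E) (fun L _ _ => phiV L)

/-! ## Part IV: assembly -/

/-- PHI. The value of the statement is `⊤`.
Proof: `o = omN` (`NU.PkOMG.omg`), `U = uN r`. `n.mem omN ≤ n.mem (uN r)`. `UNC`. For given `R'`
(a `BSet`) let `v u x = apV R' (name of u) (rN (ch (R.r x)))`, take `i`, `F` from COMB, `γ` from VAL
with `a s σ = gv R (Vx.a i s σ)`, `B = YN (beta γ)`, `V` = the set of all `y` with `XR y` and
`(fun x => y (ch (R.r x))) ∈ F`, `S = SN V`. ANA, SIG. For `u.mem U`: `u` is a name `u₀` of an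
element; `Y = YN (fun a => apV R' u₀ (rN a))`, in `V` since `v u₀ ∈ F`; RQ (6). Finally
`B.mem S = ⨆ y : V, B.eq (YN y) ≤ ⨅ x, iffV (beta γ (ch (r x))) (y (ch (r x)))` and
`beta γ (ch (r x)) = gv R (Vx.g i x [])` by VAL and EQ: this is `⊥` by COMB. -/
def G_PHI : Prop := ∀ (X : Type) [LinearOrder X], Om1 X → ∀ R : Rnk X,
  phiV (RO (Cd R (Ix X))) = ⊤

end AN
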