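import Pool.Agent.Helper59.AN.Goals

/-!
# MP_4137ca_lc: fewer than continuum many generators

`PhiC E`: in `(N, E)` no sigma-algebra of sets of subsets of `ω` which is generated by fewer than
continuum many sets contains all analytic sets.
-/

noncomputable section

namespace AN

open Pool.Agent.Helper97.Ku NU BSet

universe u v

section Model

variable {N : Type v} (E : N → N → Prop)

/-- In `(N, E)`: for every set `U` such that there is no injection from the set of all subsets of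
`ω` into `U`, and for every set `R`, that is, for every family `(A u)`, `u ∈ U`, of sets of subsets
of `ω`, where `A u = {x ⊆ ω : (u, x) ∈ R}`, there are an analytic set `B` and a sigma-algebra `S`
which contains all `A u` but not `B`. -/
def PhiC : Prop :=
  ∃ o, IsOmega E o ∧ ∀ U, (¬ Inj E (fun x => Sub E x o) (fun u => E u U)) →
    ∀ R, ∃ B, IsAna E o B ∧ ∃ S, IsSig E o S ∧
      ((∀ u, E u U → ∃ Y, E Y S ∧ IsSec E o R u Y) ∧ ¬ E B S)

end Model

/-- The Boolean value of: the analytic set `B` and the sigma-algebra `S` exist. -/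
def exV {L : Type u} [CompleteBooleanAlgebra L] (o U R : BSet L) : L :=
  ⨆ B : BSet L, (anaV o B ⊓ ⨆ S : BSet L, (sigV o S ⊓
      ((⨅ u : BSet L, (u.mem U ⇨ ⨆ Y : BSet L, (Y.mem S ⊓ secV o R u Y))) ⊓ (B.mem S)ᶜ)))

def phiCV (L : Type u) [CompleteBooleanAlgebra L] : L :=
  ⨆ o : BSet L, (omegaV o ⊓ ⨅ U : BSet L,
    ((injV (fun x => subV x o) (fun u => u.mem U))ᶜ ⇨ ⨅ R : BSet L, exV o U R))

/-- CARD. The algebra has few sequences: `#(ℕ → L) ≤ #I` for `L = RO (Cd R I)`, `I = Ix X`.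
Proof. Let `T = (ℕ ⊕ X) × X × ℕ`, an infinite set, so `#I = 2 ^ #T` and
`#I ^ ℵ₀ = 2 ^ (#T * ℵ₀) = 2 ^ #T = #I`. The vertices: `#(Vx I X) ≤ #I` (`Vx I X` injects into
`(I × List ℕ × Finset ℕ) ⊕ (I × X × List ℕ)`, all factors have cardinality `≤ #I`, and `#I` is
infinite), finite subsets: `#(Cd R I) ≤ #(Finset (Vx I X)) ≤ #I` (`Cardinal.mk_finset_of_infinite` or
a surjection from lists). Every `c : L` is the supremum of the elements `RO.cl {r | r ≤ q}`, `q ∈ A`,
for a countable set `A` of conditions (a maximal set of pairwise incompatible conditions in `c`,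
countable by the chain condition; this is the argument for LOW (4)); hence
`s ↦ ⨆ n, (match s n with | some q => RO.cl {r | r ≤ q} | none => ⊥)` is a surjection from
`ℕ → Option (Cd R I)` onto `L`, so `#L ≤ #I ^ ℵ₀ = #I` and `#(ℕ → L) ≤ #I ^ ℵ₀ = #I`. -/
def G_CARD : Prop := ∀ (X : Type) [LinearOrder X], Om1 X → ∀ R : Rnk X,
  CccL (RO (Cd R (Ix X))) →
  Cardinal.mk (ℕ → RO (Cd R (Ix X))) ≤ Cardinal.mk (Ix X)

/-- COV. A set into which the reals do not inject is covered by a small indexed family of names.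
Proof. Suppose the conclusion fails for `b`. Well-order `K` such that all initial segments
`{j | j < i}` have cardinality `< #K` (transport the order of `(#K).ord.ToType`). By recursion there
are names `u i`, `i : K`, such that `b ≤ (u i).mem U` and `b ≤ ((u i).eq (u j))ᶜ` for `j < i`: given
`u j` for `j < i`, let `c = ⨅ x, (x.mem U ⇨ ⨆ j < i, x.eq (u j))`. If `b ⊓ c ≠ ⊥`, then `b' = b ⊓ c`
and the family of all `u j`, `j < i`, are as required, a contradiction. So `b ≤ cᶜ =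
⨆ x, (x.mem U ⊓ ⨅ j < i, (x.eq (u j))ᶜ)`, and by fullness (`Pool.Agent.Helper46.FL.full` with
`ψ = ⊤`) some name `u i` has the value of this supremum. Let `k : (ℕ → L) → K` be injective, and
`f = BSet.mk (ℕ → L) (fun a => kpr (rN a) (u (k a))) d`, where
`d a = ⨅ a' with k a' < k a, ((rN a).eq (rN a'))ᶜ`. Then `apV f x c = ⨆ a, (d a ⊓ x.eq (rN a) ⊓
c.eq (u (k a)))` (`G_PAR`). CLAIM: `b ≤ injV (fun x => subV x omN) (fun u => u.mem U)` (so
`b = ⊥`). The elements `e a x = d a ⊓ x.eq (rN a)`, `a : ℕ → L`, are pairwise disjoint for fixed `x`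
(if `k a' < k a`, then `d a ⊓ x.eq (rN a) ⊓ x.eq (rN a') = ⊥`), and `⨆ a, e a x = ⨆ a, x.eq (rN a)`
(well-founded minimum) `≥ subV x omN` (`G_RN` (4)). For the first part: below `subV x omN` and
`e a x` take the value `u (k a)`: `apV f x c ⊓ e a x = c.eq (u (k a)) ⊓ e a x` by disjointness, and
`b ≤ (u (k a)).mem U`. For the second part:
`b ⊓ (d a ⊓ x.eq (rN a) ⊓ c.eq (u (k a))) ⊓ (d a' ⊓ x'.eq (rN a') ⊓ c.eq (u (k a')))` is `⊥` if
`a ≠ a'` (then `k a ≠ k a'`, `b ≤ ((u (k a)).eq (u (k a')))ᶜ`), and `≤ x.eq x'` if `a = a'`. -/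
def G_COV : Prop := ∀ (L : Type) [CompleteBooleanAlgebra L] (K : Type),
  Cardinal.mk (ℕ → L) ≤ Cardinal.mk K → ∀ (U : BSet L) (b : L), b ≠ ⊥ →
  b ≤ (injV (fun x => subV x omN) (fun u => u.mem U))ᶜ →
  ∃ b' : L, b' ≤ b ∧ b' ≠ ⊥ ∧ ∃ (ι : Type) (u : ι → BSet L), Cardinal.mk ι < Cardinal.mk K ∧
    ∀ x : BSet L, b' ⊓ x.mem U ≤ ⨆ j, x.eq (u j)

/-- COMB2. As COMB, for all index types of cardinality less than that of `Ix X` (the function
`h : ι × X × ℕ → I × X` of the proof of COMB: `#(ι × X × ℕ) = max (#ι) (#X) < #(Ix X)` if `ι` is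
infinite, and `#X < #(Ix X)`, since `Ix X` is the power set of a set of cardinality `#X`). -/
def G_COMB2 : Prop := ∀ (X : Type) [LinearOrder X], Om1 X → ∀ (R : Rnk X) (ι : Type),
  Cardinal.mk ι < Cardinal.mk (Ix X) →
  ∀ (v : ι → X → RO (Cd R (Ix X))), ∃ (i : Ix X) (F : Set (X → RO (Cd R (Ix X)))),
  F.Nonempty ∧ (∀ u, v u ∈ F) ∧ (∀ f ∈ F, (fun x => (f x)ᶜ) ∈ F) ∧
  (∀ (c : ℕ → RO (Cd R (Ix X))) (f : ℕ → X → RO (Cd R (Ix X))), (∀ n, f n ∈ F) →
    (fun x => ⨆ n, (c n ⊓ f n x)) ∈ F) ∧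
  ∀ f ∈ F, (⨅ x, iffV (gv R (Vx.g i x [])) (f x)) = ⊥

/-- SYC. The statement is definable. -/
def G_SYC : Prop := Dfn (fun _ E _ => PhiC E) (fun L _ _ => phiCV L)

/-- PHC. The value of the statement is `⊤`.
Proof: `o = omN`. Suppose `b = (injV ..)ᶜ ⊓ (exV omN U R')ᶜ ≠ ⊥` for some `U`, `R'`. COV with
`K = Ix X` (CARD) gives `b'`, `ι`, `u`. COMB2 for `v j x = apV R' (u j) (rN (ch (R.r x)))` gives `i`,
`F`. As in PHI: `γ` from VAL with `a s σ = gv R (Vx.a i s σ)`, `B = YN (beta γ)`, `V` = the set of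
all `y` with `XR y` and `(fun x => y (ch (R.r x))) ∈ F`, `S = SN V`; `anaV omN B = ⊤`,
`sigV omN S = ⊤`, `B.mem S = ⊥`, and `b' ⊓ x.mem U ≤ ⨆ j, x.eq (u j) ≤ ⨆ Y, (Y.mem S ⊓
secV omN R' x Y)` (take `Y = YN (fun a => apV R' (u j) (rN a))`, extensionality). So `b' ≤ exV omN U
R'`, a contradiction. -/
def G_PHC : Prop := ∀ (X : Type) [LinearOrder X], Om1 X → ∀ R : Rnk X,
  phiCV (RO (Cd R (Ix X))) = ⊤

end AN
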