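import Pool.Agent.Helper59.AN.Goals
import Pool.Agent.Helper46.FL.Lib

/-! # MP_4137ca_lc: assembly -/

noncomputable section

namespace AN

open Pool.Agent.Helper97.Ku NU

/-- The empty condition. -/
def Cd.emp {X : Type} [LinearOrder X] (R : Rnk X) (I : Type) : Cd R I := ⟨∅, by simp⟩

theorem main (ord : G_ORD) (rnk : G_RNK) (syn : G_SYN) (phi : G_PHI) :
    ∃ (N : Type 1) (E : N → N → Prop), IsZFC N E ∧ Phi E := by
  obtain ⟨X, iX, hX, hr⟩ := ord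
  obtain ⟨R⟩ := rnk X hX hr
  obtain ⟨φ, h1, h2⟩ := syn
  have h3 : (⊤ : RO (Cd R (Ix X))) ≠ ⊥ := fun h => by
    have h4 : Cd.emp R (Ix X) ∈ (⊤ : RO (Cd R (Ix X))) := RO.mem_top _
    rw [h] at h4
    exact RO.not_mem_bot _ h4
  have h4 : φ.val (fun _ => (omN : BSet (RO (Cd R (Ix X))))) ≠ ⊥ := by
    rw [h2]
    change phiV (RO (Cd R (Ix X))) ≠ ⊥
    rw [phi X hX R]
    exact h3
  obtain ⟨N, E, v, hZ, hv⟩ := Pool.Agent.Helper46.FL.con (RO (Cd R (Ix X))) φ _ h4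
  exact ⟨N, E, hZ, (h1 N E v).1 hv⟩

end AN
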