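import Pool.Agent.Helper59.AN.Goals
import Pool.Agent.Helper30.NU.NAT
import Pool.Agent.Helper77.NU.FN1
import Pool.Agent.Helper85.NU.REA

/-! # MP_4137ca_lc: packet RN, names of reals -/

noncomputable section

namespace AN.PkRN

open Pool.Agent.Helper97.Ku NU

theorem rn : G_RN := by
  intro L _
  obtain ⟨n1, n2, n3, _⟩ := NU.PkNAT.nat L
  obtain ⟨f1, _, _, _⟩ := NU.PkFN1.fn1 NU.PkNAT.nat L
  have mem : ∀ (n : ℕ) (a : ℕ → L), (nn n).mem (rN a) = a n := fun n a =>
    NU.PkREA.mem_nat n3 a n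
  refine ⟨mem, fun a => NU.PkREA.sub_om n2 a, ?_, ?_, ?_⟩
  · intro a b
    have E : (rN a).eq (rN b) = (⨅ n : ℕ, (a n ⇨ b n)) ⊓ (⨅ n : ℕ, (b n ⇨ a n)) := by
      unfold rN
      rw [BSet.eq_mk']
      simp only [NU.PkREA.mem_nat n3]
    rw [E, ← iInf_inf_eq]
    rfl
  · intro x
    refine le_trans ?_ (BSet.ext_le _ _)
    refine le_iInf fun y => le_inf ?_ ?_
    · rw [le_himp_iff]
      have h1 : subV x omN ⊓ y.mem x ≤ y.mem omN ⊓ y.mem x := by
        refine le_inf ?_ inf_le_right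
        rw [← le_himp_iff]
        exact iInf_le _ y
      refine le_trans h1 ?_
      rw [n2, iSup_inf_eq]
      refine iSup_le fun n => ?_
      unfold rN
      rw [BSet.mem_mk]
      refine le_trans ?_ (le_iSup _ n)
      refine le_inf ?_ inf_le_left
      exact BSet.mem_congr_left y (nn n) x
    · rw [le_himp_iff]
      refine le_trans inf_le_right ?_
      unfold rN
      rw [BSet.mem_mk]
      refine iSup_le fun n => ?_
      rw [inf_comm, BSet.eq_comm']
      exact BSet.mem_congr_left (nn n) y x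
  · intro n s a
    unfold agbV agr
    rw [NU.PkREA.all_nat n1 n (fun m => iffV (m.mem (fsN s)) (m.mem (rN a)))
      (NU.PkREA.ext_iff (BSet.Ext.mem_left _) (BSet.Ext.mem_left _))]
    simp only [f1, mem]
    exact le_antisymm (le_iInf fun m => le_iInf fun hm => iInf_le _ (⟨m, hm⟩ : Fin n))
      (le_iInf fun i => iInf₂_le i.1 i.2)

end AN.PkRN
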