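import Pool.Agent.Helper59.AN.Goals
import Pool.Agent.Helper56.AN.X12

/-!
# MP_4137ca_lc: packet SEP (functions of low rank differ from the generic function)
-/

noncomputable section

namespace AN.PkSEP2

open Pool.Agent.Helper97.Ku NU BSet

variable {X : Type} [LinearOrder X]

/-- The point of a vertex. -/
def pts {I : Type} : Vx I X → Set X
  | .a _ _ _ => ∅
  | .g _ x _ => {x}

theorem pts_countable {I : Type} (v : Vx I X) : (pts v).Countable := by
  cases v with
  | a i s σ => exact Set.countable_empty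
  | g i x s => exact Set.countable_singleton x

theorem sep : G_SEP := by
  classical
  intro X _ hX R I i D C b f hiD hC hb hf
  rw [eq_bot_iff, RO.le_def]
  intro p hp
  exfalso
  rw [RO.mem_iInf] at hp
  -- choice of the point `x`
  have hcount : (Set.Iic b ∪ ((Prod.snd '' C) ∪ ⋃ v ∈ (p.1 : Set (Vx I X)), pts v)).Countable := by
    refine (hX.cnt b).union ((hC.image _).union ?_)
    exact Set.Countable.biUnion (Finset.countable_toSet p.1) fun v _ => pts_countable v
  have hne : ∃ x, x ∉ (Set.Iic b ∪ ((Prod.snd '' C) ∪ ⋃ v ∈ (p.1 : Set (Vx I X)), pts v)) := by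
    by_contra hcon
    push Not at hcon
    have hu : (Set.univ : Set X).Countable := hcount.mono fun x _ => hcon x
    have := hX.unc
    exact Set.not_countable_univ hu
  obtain ⟨x, hx⟩ := hne
  have hxb : b < x := not_le.1 fun h => hx (Or.inl h)
  have hxC : (i, x) ∉ C := fun h => hx (Or.inr (Or.inl ⟨(i, x), h, rfl⟩))
  have hxp : ∀ j s, Vx.g j x s ∉ p.1 := by
    intro j s h
    refine hx (Or.inr (Or.inr ?_))
    rw [Set.mem_iUnion₂]
    exact ⟨Vx.g j x s, h, rfl⟩
  have hroot : b < R.rk x [] := hxb.trans_le (R.root x)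
  have hone : R.one < R.rk x [] := hb.trans_lt hroot
  -- the condition `p₁`
  have hfree : ∀ v ∈ p.1, ¬ Cf R v (Vx.g i x []) ∧ ¬ Cf R (Vx.g i x []) v := by
    intro v hv
    cases v with
    | a j s σ =>
      constructor
      · rintro ⟨_, h2, h3, _⟩
        subst h2
        exact h3 hone
      · rintro ⟨_, h2, h3, _⟩
        subst h2
        exact h3 hone
    | g j y s =>
      constructor
      · rintro ⟨_, h2, _⟩
        exact hxp j s (h2 ▸ hv)
      · rintro ⟨_, h2, _⟩
        exact hxp j s (h2 ▸ hv)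
  have hself : ¬ Cf R (Vx.g i x []) (Vx.g i x [] : Vx I X) := by
    rintro ⟨_, _, ⟨⟨n, h⟩, _⟩ | ⟨⟨n, h⟩, _⟩⟩
    · exact absurd h (by simp)
    · exact absurd h (by simp)
  let p₁ : Cd R I := ⟨insert (Vx.g i x []) p.1, by
    intro v hv w hw
    rcases Finset.mem_insert.1 hv with h | h
    · rcases Finset.mem_insert.1 hw with h' | h'
      · rw [h, h']
        exact hself
      · rw [h]
        exact (hfree w h').2
    · rcases Finset.mem_insert.1 hw with h' | h'
      · rw [h']
        exact (hfree v h).1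
      · exact p.2 v h w h'⟩
  have hp1 : p₁ ≤ p := fun v hv => Finset.mem_insert_of_mem hv
  have hg1 : p₁ ∈ gv R (Vx.g i x []) := by
    rw [gv, RO.mem_cl]
    intro q hq
    exact ⟨q, le_rfl, hq (Finset.mem_insert_self _ _)⟩
  have hpx := hp x
  rw [iffV, RO.mem_inf, RO.mem_himp, RO.mem_himp] at hpx
  obtain ⟨hgf, hfg⟩ := hpx
  have hf1 : p₁ ∈ f x := hgf p₁ hp1 hg1
  obtain ⟨q, hqf, hqlow, t, htp, htq⟩ := hf x p₁ hf1
  have hnq : Vx.g i x [] ∉ q.1 := by
    intro h
    rcases hqlow _ h with h1 | h1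
    · rcases h1 with h2 | h2
      · exact hiD h2
      · exact hxC h2
    · exact absurd h1 (not_le.2 hroot)
  let z : Cd R I := ⟨q.1 ∪ p.1, by
    intro v hv w hw
    refine t.2 v ?_ w ?_
    · rcases Finset.mem_union.1 hv with h | h
      · exact htq h
      · exact htp (hp1 h)
    · rcases Finset.mem_union.1 hw with h | h
      · exact htq h
      · exact htp (hp1 h)⟩
  have hzq : z ≤ q := fun v hv => Finset.mem_union.2 (Or.inl hv)
  have hzp : z ≤ p := fun v hv => Finset.mem_union.2 (Or.inr hv)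
  have hnz : Vx.g i x [] ∉ z.1 := by
    intro h
    rcases Finset.mem_union.1 h with h | h
    · exact hnq h
    · exact hxp i [] h
  obtain ⟨n, p₂, hp2, hn2, _⟩ := (PkX12.x12 X R I z i x [] hnz).1 hone
  have hf2 : p₂ ∈ f x := RO.lower (hp2.trans hzq) hqf
  have hg2 : p₂ ∈ gv R (Vx.g i x []) := hfg p₂ (hp2.trans hzp) hf2
  rw [gv, RO.mem_cl] at hg2
  obtain ⟨r, hr, hrg⟩ := hg2 p₂ le_rfl
  exact r.2 _ hrg _ (hr hn2) ⟨rfl, rfl, Or.inl ⟨⟨n, rfl⟩, hone⟩⟩

end AN.PkSEP2
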